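import Mathlib

/-!
# The tree stabbing number is not monotone

There are nine points in general position with a spanning tree of stabbing number `3`, while after
deleting one of them every spanning tree of the remaining eight points is stabbed at least four
times by some line.  The lower bound is a finite search over the spanning trees, done in the kernel,
with fourteen lines.
-/

set_option autoImplicit false

namespace Pool.Agent.U491.TreeStab

/-- A line of the plane. -/
def IsLine (l : Set (ℝ × ℝ)) : Prop :=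
  ∃ a b c : ℝ, (a ≠ 0 ∨ b ≠ 0) ∧ l = {p | a * p.1 + b * p.2 = c}

/-- The line `l` stabs the segment `pq`: they have exactly one common point, and this point lies in
the relative interior of the segment. -/
def Stabs (l : Set (ℝ × ℝ)) (p q : ℝ × ℝ) : Prop :=
  ∃ z, l ∩ segment ℝ p q = {z} ∧ z ∈ openSegment ℝ p q

/-- The number of edges of `G` stabbed by `l`. -/
noncomputable def stabCount {S : Finset (ℝ × ℝ)} (G : SimpleGraph S) (l : Set (ℝ × ℝ)) : ℕ :=
  {e : Sym2 S | ∃ p q : S, e = s(p, q) ∧ G.Adj p q ∧ Stabs l p q}.ncard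

/-- The stabbing number of `G`: the maximum of `stabCount G l` over all lines `l`. -/
noncomputable def stabNumber {S : Finset (ℝ × ℝ)} (G : SimpleGraph S) : ℕ :=
  sSup {k | ∃ l, IsLine l ∧ k = stabCount G l}

/-- `TREE-STAB(S)`: the minimum stabbing number over all trees with vertex set `S`. -/
noncomputable def treeStab (S : Finset (ℝ × ℝ)) : ℕ :=
  sInf {k | ∃ G : SimpleGraph S, G.IsTree ∧ k = stabNumber G}

/-! ### Stabbing and signs -/

/-- the affine function defining a line -/
def fn (a b c : ℝ) (p : ℝ × ℝ) : ℝ := a * p.1 + b * p.2 - c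

theorem fn_comb (a b c : ℝ) (p q : ℝ × ℝ) (s t : ℝ) (h : s + t = 1) :
    fn a b c (s • p + t • q) = s * fn a b c p + t * fn a b c q := by
  have hs : s = 1 - t := by linarith
  subst hs
  simp only [fn, Prod.fst_add, Prod.snd_add, Prod.smul_fst, Prod.smul_snd, smul_eq_mul]
  ring

theorem stabs_of_sign (a b c : ℝ) (p q : ℝ × ℝ) (h : fn a b c p * fn a b c q < 0) :
    Stabs {p | a * p.1 + b * p.2 = c} p q := by
  have key : ∀ u v : ℝ, u * v < 0 → u - v ≠ 0 ∧ 0 < u / (u - v) ∧ 0 < -v / (u - v) := by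
    intro u v huv
    rcases mul_neg_iff.1 huv with ⟨h1, h2⟩ | ⟨h1, h2⟩
    · have : 0 < u - v := by linarith
      exact ⟨this.ne', div_pos h1 this, div_pos (by linarith) this⟩
    · have : u - v < 0 := by linarith
      exact ⟨this.ne, div_pos_of_neg_of_neg h1 this, div_pos_of_neg_of_neg (by linarith) this⟩
  obtain ⟨hne, hpos1, hpos2⟩ := key _ _ h
  set u := fn a b c p with hu
  set v := fn a b c q with hv
  have hsum : -v / (u - v) + u / (u - v) = 1 := by field_simp; ring
  have hmem : (-v / (u - v)) • p + (u / (u - v)) • q ∈ openSegment ℝ p q :=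
    ⟨_, _, hpos2, hpos1, hsum, rfl⟩
  refine ⟨(-v / (u - v)) • p + (u / (u - v)) • q, ?_, hmem⟩
  ext w
  rw [Set.mem_singleton_iff]
  constructor
  · rintro ⟨hw1, s, t, _, _, hst, rfl⟩
    have h1 : fn a b c (s • p + t • q) = 0 := by
      have : a * (s • p + t • q).1 + b * (s • p + t • q).2 = c := hw1
      unfold fn
      linarith
    rw [fn_comb a b c p q s t hst, ← hu, ← hv] at h1
    have ht : t = u / (u - v) := by
      rw [eq_div_iff hne]
      have hs : s = 1 - t := by linarith
      rw [hs] at h1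
      linarith
    have hs : s = -v / (u - v) := by linarith
    rw [ht, hs]
  · rintro rfl
    refine ⟨?_, openSegment_subset_segment ℝ p q hmem⟩
    have h1 := fn_comb a b c p q (-v / (u - v)) (u / (u - v)) hsum
    rw [← hu, ← hv] at h1
    have h2 : -v / (u - v) * u + u / (u - v) * v = 0 := by field_simp; ring
    rw [h2] at h1
    show a * _ + b * _ = c
    unfold fn at h1
    linarith

theorem sign_of_stabs (a b c : ℝ) (p q : ℝ × ℝ) (hpq : p ≠ q)
    (h : Stabs {p | a * p.1 + b * p.2 = c} p q) : fn a b c p * fn a b c q < 0 := by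
  obtain ⟨z, hz, s, t, hs, ht, hst, rfl⟩ := h
  have hmem : s • p + t • q ∈ {p | a * p.1 + b * p.2 = c} ∩ segment ℝ p q := by
    rw [hz]; rfl
  have h1 : fn a b c (s • p + t • q) = 0 := by
    have : a * (s • p + t • q).1 + b * (s • p + t • q).2 = c := hmem.1
    unfold fn
    linarith
  rw [fn_comb a b c p q s t hst] at h1
  have hp : fn a b c p ≠ 0 := by
    intro h0
    have hq : fn a b c q = 0 := by
      rw [h0, mul_zero, zero_add] at h1
      exact (mul_eq_zero.1 h1).resolve_left ht.ne'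
    have h2 : p ∈ {p | a * p.1 + b * p.2 = c} ∩ segment ℝ p q :=
      ⟨by show a * _ + b * _ = c; unfold fn at h0; linarith, left_mem_segment ℝ p q⟩
    have h3 : q ∈ {p | a * p.1 + b * p.2 = c} ∩ segment ℝ p q :=
      ⟨by show a * _ + b * _ = c; unfold fn at hq; linarith, right_mem_segment ℝ p q⟩
    rw [hz, Set.mem_singleton_iff] at h2 h3
    exact hpq (h2.trans h3.symm)
  have h4 : fn a b c q = -(s / t) * fn a b c p := by
    field_simp
    linarith
  rw [h4]
  have h5 : 0 < s / t := div_pos hs ht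
  have h6 : 0 < fn a b c p ^ 2 := by positivity
  nlinarith

/-! ### The points -/

/-- the nine points -/
def ptL : List (ℤ × ℤ) :=
  [(4, 4), (0, 3), (11, 10), (4, 2), (10, 2), (1, 11), (11, 0), (6, 5), (1, 3)]

/-- the points with integer coordinates -/
def ptZ (i : ℕ) : ℤ × ℤ := ptL.getD i (0, 0)

/-- the points -/
def P (i : ℕ) : ℝ × ℝ := (((ptZ i).1 : ℝ), ((ptZ i).2 : ℝ))

theorem P_inj {i j : ℕ} (hi : i < 9) (hj : j < 9) (h : P i = P j) : i = j := by
  have h1 : (ptZ i).1 = (ptZ j).1 := by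
    have : ((ptZ i).1 : ℝ) = (ptZ j).1 := congrArg Prod.fst h
    exact_mod_cast this
  have h2 : (ptZ i).2 = (ptZ j).2 := by
    have : ((ptZ i).2 : ℝ) = (ptZ j).2 := congrArg Prod.snd h
    exact_mod_cast this
  have key : ∀ i < 9, ∀ j < 9, (ptZ i).1 = (ptZ j).1 → (ptZ i).2 = (ptZ j).2 → i = j := by
    decide +kernel
  exact key i hi j hj h1 h2

/-! ### The lower bound for eight points -/

/-- the edge `e` joins the set coded by `m` and its complement -/
def crossM (m : ℕ) (e : ℕ × ℕ) : Bool := xor (m.testBit e.1) (m.testBit e.2)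

/-- lines `a x + b y = c`, and the sets of points with `a x + b y > c` -/
def lines : List (ℤ × ℤ × ℤ × ℕ) :=
  [(-1, 0, -5, 43), (-5, 4, -11, 163), (-2, 6, 17, 166), (-2, -2, -23, 203), (-3, -1, -15, 42),
    (0, -2, -7, 90), (-4, -3, -45, 235), (-3, 4, 3, 39), (-8, -7, -84, 139), (-1, -2, -15, 91),
    (-1, 2, 5, 38), (-6, -22, -67, 66), (-2, 0, -21, 187), (-1, -3, -15, 74)]

/-- the codes of the lines -/
def masks : List ℕ := [43, 163, 166, 203, 42, 90, 235, 39, 139, 91, 38, 66, 187, 74]

theorem masks_eq : masks = lines.map fun l => l.2.2.2 := rfl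

theorem lines_ok : ∀ l ∈ lines, (l.1 ≠ 0 ∨ l.2.1 ≠ 0) ∧ ∀ i < 8,
    (l.2.2.2.testBit i = true ∧ l.2.2.1 < l.1 * (ptZ i).1 + l.2.1 * (ptZ i).2) ∨
    (l.2.2.2.testBit i = false ∧ l.1 * (ptZ i).1 + l.2.1 * (ptZ i).2 < l.2.2.1) := by
  decide +kernel

/-- the pairs `i < j < 8` -/
def E8 : List (ℕ × ℕ) :=
  (List.range 8).flatMap fun i => ((List.range 8).filter fun j => i < j).map fun j => (i, j)

/-- adding `e` to the edges `used` gives a fourth edge across some line -/
def viol (used : List (ℕ × ℕ)) (e : ℕ × ℕ) : Bool :=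
  masks.any fun m => crossM m e && Nat.ble 3 (used.filter (crossM m)).length

/-- merge the set `K` with the other set touched by `e` -/
def merge (K : ℕ) (rest : List ℕ) (e : ℕ × ℕ) : List ℕ :=
  (rest.filter fun c => !(c.testBit e.1 || c.testBit e.2)) ++
    [rest.foldl (fun a c => if c.testBit e.1 || c.testBit e.2 then a ||| c else a) K]

/-- try all available edges leaving `K` -/
def tryE (rec : List ℕ → List (ℕ × ℕ) → List (ℕ × ℕ) → Bool) (K : ℕ) (rest : List ℕ)
    (used : List (ℕ × ℕ)) : List (ℕ × ℕ) → List (ℕ × ℕ) → Bool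
  | _, [] => true
  | done, e :: es =>
    if crossM K e then
      (viol used e || rec (merge K rest e) (e :: used) (done ++ es)) &&
        tryE rec K rest used done es
    else tryE rec K rest used (done ++ [e]) es

/-- there is no spanning tree with at most three edges across each line which contains `used` and
whose other edges are in the last list -/
def search : ℕ → List ℕ → List (ℕ × ℕ) → List (ℕ × ℕ) → Bool
  | 0, _, _, _ => false
  | _ + 1, [], _, _ => false
  | f + 1, K :: rest, used, avail =>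
    ((List.range 8).any fun i => K.testBit i) && (((List.range 8).any fun i => !K.testBit i) &&
      ((used.all fun e => !crossM K e) && tryE (search f) K rest used [] avail))

set_option maxRecDepth 100000 in
theorem search_ok : search 9 [1, 2, 4, 8, 16, 32, 64, 128] [] E8 = true := by decide +kernel

/-- the pair is an edge of `G` -/
def GE (G : SimpleGraph (Fin 8)) (e : ℕ × ℕ) : Prop :=
  ∃ (h1 : e.1 < 8) (h2 : e.2 < 8), e.1 < e.2 ∧ G.Adj ⟨e.1, h1⟩ ⟨e.2, h2⟩

/-- at most three edges of `G` across each line -/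
def Good (G : SimpleGraph (Fin 8)) : Prop :=
  ∀ m ∈ masks, ∀ L : List (ℕ × ℕ), L.Nodup → (∀ e ∈ L, GE G e ∧ crossM m e = true) → L.length ≤ 3

theorem exists_cross {G : SimpleGraph (Fin 8)} (hG : G.Connected) (K : ℕ)
    (h1 : ((List.range 8).any fun i => K.testBit i) = true)
    (h2 : ((List.range 8).any fun i => !K.testBit i) = true) :
    ∃ e, GE G e ∧ crossM K e = true := by
  rw [List.any_eq_true] at h1 h2
  obtain ⟨i, hi, hi'⟩ := h1
  obtain ⟨j, hj, hj'⟩ := h2
  rw [List.mem_range] at hi hj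
  obtain ⟨w⟩ := hG.preconnected (⟨i, hi⟩ : Fin 8) (⟨j, hj⟩ : Fin 8)
  obtain ⟨d, -, hd1, hd2⟩ := w.exists_boundary_dart {v : Fin 8 | K.testBit v.1 = true} hi'
    (by
      show ¬ (K.testBit j = true)
      simpa using hj')
  have hd1' : K.testBit d.fst.1 = true := hd1
  have hd2' : K.testBit d.snd.1 = false := by
    have : ¬ (K.testBit d.snd.1 = true) := hd2
    simpa using this
  rcases lt_trichotomy d.fst.1 d.snd.1 with h | h | h
  · exact ⟨(d.fst.1, d.snd.1), ⟨d.fst.2, d.snd.2, h, d.adj⟩, by simp [crossM, hd1', hd2']⟩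
  · rw [h, hd2'] at hd1'
    exact absurd hd1' (by simp)
  · exact ⟨(d.snd.1, d.fst.1), ⟨d.snd.2, d.fst.2, h, d.adj.symm⟩, by simp [crossM, hd1', hd2']⟩

theorem tryE_sound {G : SimpleGraph (Fin 8)} (hgood : Good G)
    (rec : List ℕ → List (ℕ × ℕ) → List (ℕ × ℕ) → Bool) (K : ℕ) (rest : List ℕ)
    (used : List (ℕ × ℕ)) (hu1 : ∀ e ∈ used, GE G e) (hu2 : used.Nodup)
    (hu3 : ∀ e ∈ used, crossM K e = false)
    (hrec : ∀ cs us av, (∀ e ∈ us, GE G e) → us.Nodup → (∀ e, GE G e → e ∈ av ∨ e ∈ us) →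
      rec cs us av = true → False)
    (hK : ∃ e, GE G e ∧ crossM K e = true) :
    ∀ todo done : List (ℕ × ℕ), (∀ e ∈ done, crossM K e = false) →
      (∀ e, GE G e → e ∈ done ∨ e ∈ todo ∨ e ∈ used) →
      tryE rec K rest used done todo = true → False := by
  intro todo
  induction todo with
  | nil =>
    intro done hd hall _
    obtain ⟨e, he, hc⟩ := hK
    rcases hall e he with h | h | h
    · rw [hd e h] at hc; exact absurd hc (by simp)
    · exact absurd h (by simp)
    · rw [hu3 e h] at hc; exact absurd hc (by simp)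
  | cons e es ih =>
    intro done hd hall h
    rw [tryE] at h
    by_cases hc : crossM K e = true
    · rw [if_pos hc, Bool.and_eq_true, Bool.or_eq_true] at h
      obtain ⟨h1, h2⟩ := h
      by_cases hGe : GE G e
      · have heu : e ∉ used := by
          intro hmem
          rw [hu3 e hmem] at hc
          exact absurd hc (by simp)
        rcases h1 with h1 | h1
        · unfold viol at h1
          rw [List.any_eq_true] at h1
          obtain ⟨m, hm, hm2⟩ := h1
          rw [Bool.and_eq_true] at hm2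
          obtain ⟨hm3, hm4⟩ := hm2
          have h3 := hgood m hm (e :: used.filter (crossM m)) ?_ ?_
          · rw [List.length_cons] at h3
            have := Nat.le_of_ble_eq_true hm4
            omega
          · rw [List.nodup_cons]
            exact ⟨fun hx => heu (List.mem_of_mem_filter hx), hu2.filter _⟩
          · intro x hx
            rw [List.mem_cons] at hx
            rcases hx with rfl | hx
            · exact ⟨hGe, hm3⟩
            · rw [List.mem_filter] at hx
              exact ⟨hu1 x hx.1, hx.2⟩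
        · refine hrec _ (e :: used) (done ++ es) ?_ ?_ ?_ h1
          · intro x hx
            rw [List.mem_cons] at hx
            rcases hx with rfl | hx
            · exact hGe
            · exact hu1 x hx
          · exact List.nodup_cons.2 ⟨heu, hu2⟩
          · intro x hx
            rcases hall x hx with h | h | h
            · exact Or.inl (List.mem_append_left _ h)
            · rw [List.mem_cons] at h
              rcases h with rfl | h
              · exact Or.inr List.mem_cons_self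
              · exact Or.inl (List.mem_append_right _ h)
            · exact Or.inr (List.mem_cons_of_mem _ h)
      · refine ih done hd ?_ h2
        intro x hx
        rcases hall x hx with h | h | h
        · exact Or.inl h
        · rw [List.mem_cons] at h
          rcases h with rfl | h
          · exact absurd hx hGe
          · exact Or.inr (Or.inl h)
        · exact Or.inr (Or.inr h)
    · rw [if_neg hc] at h
      refine ih (done ++ [e]) ?_ ?_ h
      · intro x hx
        rw [List.mem_append, List.mem_singleton] at hx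
        rcases hx with hx | rfl
        · exact hd x hx
        · simpa using hc
      · intro x hx
        rcases hall x hx with h | h | h
        · exact Or.inl (List.mem_append_left _ h)
        · rw [List.mem_cons] at h
          rcases h with rfl | h
          · exact Or.inl (List.mem_append_right _ (by simp))
          · exact Or.inr (Or.inl h)
        · exact Or.inr (Or.inr h)

theorem search_sound {G : SimpleGraph (Fin 8)} (hG : G.Connected) (hgood : Good G) :
    ∀ f cs us av, (∀ e ∈ us, GE G e) → us.Nodup → (∀ e, GE G e → e ∈ av ∨ e ∈ us) →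
      search f cs us av = true → False := by
  intro f
  induction f with
  | zero =>
    intro cs us av _ _ _ h
    simp [search] at h
  | succ f ih =>
    intro cs us av h1 h2 h3 h
    cases cs with
    | nil => simp [search] at h
    | cons K rest =>
      rw [search, Bool.and_eq_true, Bool.and_eq_true, Bool.and_eq_true] at h
      obtain ⟨a1, a2, a3, a4⟩ := h
      rw [List.all_eq_true] at a3
      refine tryE_sound hgood (search f) K rest us h1 h2 ?_ ih (exists_cross hG K a1 a2) av []
        (by simp) ?_ a4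
      · intro e he
        simpa using a3 e he
      · intro e he
        rcases h3 e he with h | h
        · exact Or.inr (Or.inl h)
        · exact Or.inr (Or.inr h)

theorem mem_E8 (e : ℕ × ℕ) (h1 : e.1 < 8) (h2 : e.2 < 8) (h3 : e.1 < e.2) : e ∈ E8 := by
  unfold E8
  rw [List.mem_flatMap]
  refine ⟨e.1, List.mem_range.2 h1, ?_⟩
  rw [List.mem_map]
  exact ⟨e.2, by simp [h2, h3], rfl⟩

theorem not_good {G : SimpleGraph (Fin 8)} (hG : G.Connected) : ¬ Good G := by
  intro hgood
  refine search_sound hG hgood 9 [1, 2, 4, 8, 16, 32, 64, 128] [] E8 (by simp) List.nodup_nil ?_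
    search_ok
  rintro e ⟨h1, h2, h3, -⟩
  exact Or.inl (mem_E8 e h1 h2 h3)

/-! ### The upper bound for nine points -/

/-- the edges of the tree -/
def T9 : List (ℕ × ℕ) := [(5, 8), (4, 6), (3, 6), (3, 8), (1, 8), (2, 7), (0, 8), (0, 7)]

/-- twice the signed area of a triangle -/
def det (i j k : ℕ) : ℤ :=
  ((ptZ j).1 - (ptZ i).1) * ((ptZ k).2 - (ptZ i).2) -
    ((ptZ j).2 - (ptZ i).2) * ((ptZ k).1 - (ptZ i).1)

theorem radon (a b c : ℝ) (i j k l : ℕ) :
    (det j k l : ℝ) * fn a b c (P i) - det i k l * fn a b c (P j) + det i j l * fn a b c (P k) -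
      det i j k * fn a b c (P l) = 0 := by
  simp only [det, fn, P]
  push_cast
  ring

/-- the quadruples -/
def quads : List (ℕ × ℕ × ℕ × ℕ) :=
  (List.range 9).flatMap fun i => (List.range 9).flatMap fun j => (List.range 9).flatMap fun k =>
    ((List.range 9).filter fun l => i < j && j < k && k < l).map fun l => (i, j, k, l)

/-- the signs agree with those of the coefficients -/
def agree (s : List Bool) (i : ℕ) (d : ℤ) : Bool := s.getD i false == decide (0 < d)

/-- the sign vector `s` is impossible because of the quadruple `q` -/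
def badq (s : List Bool) (q : ℕ × ℕ × ℕ × ℕ) : Bool :=
  (agree s q.1 (det q.2.1 q.2.2.1 q.2.2.2) && agree s q.2.1 (-det q.1 q.2.2.1 q.2.2.2) &&
    agree s q.2.2.1 (det q.1 q.2.1 q.2.2.2) && agree s q.2.2.2 (-det q.1 q.2.1 q.2.2.1)) ||
  (agree s q.1 (-det q.2.1 q.2.2.1 q.2.2.2) && agree s q.2.1 (det q.1 q.2.2.1 q.2.2.2) &&
    agree s q.2.2.1 (-det q.1 q.2.1 q.2.2.2) && agree s q.2.2.2 (det q.1 q.2.1 q.2.2.1))

/-- at most three edges of the tree have ends with different signs, or `s` is impossible -/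
def chk (s : List Bool) : Bool :=
  Nat.ble (T9.filter fun e => xor (s.getD e.1 false) (s.getD e.2 false)).length 3 ||
    quads.any (badq s)

theorem chk_all : ∀ b0 b1 b2 b3 b4 b5 b6 b7 b8 : Bool,
    chk [b0, b1, b2, b3, b4, b5, b6, b7, b8] = true := by decide +kernel

theorem quads_ok : ∀ q ∈ quads, det q.2.1 q.2.2.1 q.2.2.2 ≠ 0 ∧ det q.1 q.2.2.1 q.2.2.2 ≠ 0 ∧
    det q.1 q.2.1 q.2.2.2 ≠ 0 ∧ det q.1 q.2.1 q.2.2.1 ≠ 0 ∧ q.1 < 9 ∧ q.2.1 < 9 ∧ q.2.2.1 < 9 ∧
    q.2.2.2 < 9 := by
  decide +kernel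

/-- the sign vector of a function -/
def sgn (v : ℕ → ℝ) [∀ i, Decidable (0 < v i)] : List Bool :=
  [decide (0 < v 0), decide (0 < v 1), decide (0 < v 2), decide (0 < v 3), decide (0 < v 4),
    decide (0 < v 5), decide (0 < v 6), decide (0 < v 7), decide (0 < v 8)]

theorem sgn_getD (v : ℕ → ℝ) [∀ i, Decidable (0 < v i)] (i : ℕ) (hi : i < 9) :
    (sgn v).getD i false = decide (0 < v i) := by
  unfold sgn
  interval_cases i <;> rfl

theorem agree_pos (v : ℕ → ℝ) [∀ i, Decidable (0 < v i)] (hv : ∀ i < 9, v i ≠ 0) (i : ℕ)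
    (hi : i < 9) (d : ℤ) (hd : d ≠ 0) (h : agree (sgn v) i d = true) : 0 < (d : ℝ) * v i := by
  unfold agree at h
  rw [sgn_getD v i hi, beq_iff_eq, decide_eq_decide] at h
  rcases lt_or_gt_of_ne hd with h1 | h1
  · have h2 : ¬ 0 < v i := fun h3 => absurd (h.1 h3) (not_lt.2 h1.le)
    have h3 : v i < 0 := lt_of_le_of_ne (not_lt.1 h2) (hv i hi)
    have h4 : (d : ℝ) < 0 := by exact_mod_cast h1
    exact mul_pos_of_neg_of_neg h4 h3
  · have h2 : 0 < v i := h.2 h1
    have h4 : (0 : ℝ) < d := by exact_mod_cast h1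
    exact mul_pos h4 h2

theorem count_le (a b c : ℝ) (hv : ∀ i < 9, fn a b c (P i) ≠ 0)
    [∀ i, Decidable (0 < fn a b c (P i))] :
    (T9.filter fun e => xor (decide (0 < fn a b c (P e.1)))
      (decide (0 < fn a b c (P e.2)))).length ≤ 3 := by
  have h : chk (sgn fun i => fn a b c (P i)) = true := chk_all _ _ _ _ _ _ _ _ _
  unfold chk at h
  rw [Bool.or_eq_true] at h
  rcases h with h | h
  · have h1 := Nat.le_of_ble_eq_true h
    have h2 : (T9.filter fun e => xor (decide (0 < fn a b c (P e.1)))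
        (decide (0 < fn a b c (P e.2)))) =
        (T9.filter fun e => xor ((sgn fun i => fn a b c (P i)).getD e.1 false)
          ((sgn fun i => fn a b c (P i)).getD e.2 false)) := by
      apply List.filter_congr
      intro e he
      have h3 : ∀ e ∈ T9, e.1 < 9 ∧ e.2 < 9 := by decide
      rw [sgn_getD _ _ (h3 e he).1, sgn_getD _ _ (h3 e he).2]
    rw [h2]
    exact h1
  · exfalso
    rw [List.any_eq_true] at h
    obtain ⟨q, hq, hbad⟩ := h
    obtain ⟨d1, d2, d3, d4, k1, k2, k3, k4⟩ := quads_ok q hq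
    have hr := radon a b c q.1 q.2.1 q.2.2.1 q.2.2.2
    unfold badq at hbad
    rw [Bool.or_eq_true, Bool.and_eq_true, Bool.and_eq_true, Bool.and_eq_true, Bool.and_eq_true,
      Bool.and_eq_true, Bool.and_eq_true] at hbad
    rcases hbad with ⟨⟨⟨g1, g2⟩, g3⟩, g4⟩ | ⟨⟨⟨g1, g2⟩, g3⟩, g4⟩
    · have e1 := agree_pos _ hv _ k1 _ d1 g1
      have e2 := agree_pos _ hv _ k2 _ (neg_ne_zero.2 d2) g2
      have e3 := agree_pos _ hv _ k3 _ d3 g3
      have e4 := agree_pos _ hv _ k4 _ (neg_ne_zero.2 d4) g4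
      push_cast at e2 e4
      linarith
    · have e1 := agree_pos _ hv _ k1 _ (neg_ne_zero.2 d1) g1
      have e2 := agree_pos _ hv _ k2 _ d2 g2
      have e3 := agree_pos _ hv _ k3 _ (neg_ne_zero.2 d3) g3
      have e4 := agree_pos _ hv _ k4 _ d4 g4
      push_cast at e1 e3
      linarith

/-- every line stabs at most three edges of the tree -/
theorem upper (a b c : ℝ) (L : List (ℕ × ℕ)) (hL : L.Nodup)
    (h : ∀ e ∈ L, e ∈ T9 ∧ fn a b c (P e.1) * fn a b c (P e.2) < 0) : L.length ≤ 3 := by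
  classical
  -- move the line off the points
  obtain ⟨ε, hε0, hε⟩ : ∃ ε : ℝ, 0 < ε ∧ ∀ i : Fin 9, fn a b c (P i) < 0 →
      fn a b c (P i) + ε < 0 := by
    have h1 : ∀ᶠ ε : ℝ in nhdsWithin 0 (Set.Ioi 0), ∀ i : Fin 9, fn a b c (P i) < 0 →
        fn a b c (P i) + ε < 0 := by
      rw [Filter.eventually_all]
      intro i
      by_cases hi : fn a b c (P i) < 0
      · have h2 : ∀ᶠ ε : ℝ in nhdsWithin 0 (Set.Ioi 0), ε < -fn a b c (P i) :=
          nhdsWithin_le_nhds (gt_mem_nhds (by linarith))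
        filter_upwards [h2] with ε h3 _
        linarith
      · exact Filter.Eventually.of_forall fun ε h => absurd h hi
    have h2 : ∀ᶠ ε : ℝ in nhdsWithin 0 (Set.Ioi 0), 0 < ε := self_mem_nhdsWithin
    obtain ⟨ε, h3, h4⟩ := (h2.and h1).exists
    exact ⟨ε, h3, h4⟩
  have hshift : ∀ p, fn a b (c - ε) p = fn a b c p + ε := by
    intro p
    unfold fn
    ring
  have hne : ∀ i < 9, fn a b (c - ε) (P i) ≠ 0 := by
    intro i hi
    rw [hshift]
    rcases lt_or_ge (fn a b c (P i)) 0 with h1 | h1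
    · exact (hε ⟨i, hi⟩ h1).ne
    · exact (by linarith : 0 < fn a b c (P i) + ε).ne'
  have hcount := count_le a b (c - ε) hne
  refine le_trans ?_ hcount
  have hsub : L.toFinset ⊆ (T9.filter fun e => xor (decide (0 < fn a b (c - ε) (P e.1)))
      (decide (0 < fn a b (c - ε) (P e.2)))).toFinset := by
    intro e he
    rw [List.mem_toFinset] at he ⊢
    obtain ⟨he1, he2⟩ := h e he
    rw [List.mem_filter]
    refine ⟨he1, ?_⟩
    have h3 : ∀ e ∈ T9, e.1 < 9 ∧ e.2 < 9 := by decide
    rw [hshift, hshift]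
    rcases mul_neg_iff.1 he2 with ⟨h4, h5⟩ | ⟨h4, h5⟩
    · have h6 := hε ⟨e.2, (h3 e he1).2⟩ h5
      have h7 : ¬ 0 < fn a b c (P e.2) + ε := not_lt.2 h6.le
      have h8 : 0 < fn a b c (P e.1) + ε := by linarith
      simp [h7, h8]
    · have h6 := hε ⟨e.1, (h3 e he1).1⟩ h4
      have h7 : ¬ 0 < fn a b c (P e.1) + ε := not_lt.2 h6.le
      have h8 : 0 < fn a b c (P e.2) + ε := by linarith
      simp [h7, h8]
  calc L.length = L.toFinset.card := (List.toFinset_card_of_nodup hL).symm
    _ ≤ _ := Finset.card_le_card hsub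
    _ ≤ _ := List.toFinset_card_le _

/-- the tree on the nine indices -/
def tree9 : SimpleGraph (Fin 9) where
  Adj i j := (i.1, j.1) ∈ T9 ∨ (j.1, i.1) ∈ T9
  symm := ⟨fun _ _ h => h.symm⟩
  loopless := ⟨fun i h => by
    have : ∀ i : Fin 9, ¬ ((i.1, i.1) ∈ T9 ∨ (i.1, i.1) ∈ T9) := by decide
    exact this i h⟩

instance : DecidableRel tree9.Adj := fun i j =>
  inferInstanceAs (Decidable ((i.1, j.1) ∈ T9 ∨ (j.1, i.1) ∈ T9))

theorem tree9_isTree : tree9.IsTree := by
  rw [SimpleGraph.isTree_iff_connected_and_card]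
  constructor
  · have r8 : tree9.Reachable 8 8 := SimpleGraph.Reachable.refl _
    have r5 : tree9.Reachable 5 8 := SimpleGraph.Adj.reachable (by decide)
    have r3 : tree9.Reachable 3 8 := SimpleGraph.Adj.reachable (by decide)
    have r1 : tree9.Reachable 1 8 := SimpleGraph.Adj.reachable (by decide)
    have r0 : tree9.Reachable 0 8 := SimpleGraph.Adj.reachable (by decide)
    have r7 : tree9.Reachable 7 8 :=
      (SimpleGraph.Adj.reachable (show tree9.Adj 7 0 by decide)).trans r0
    have r2 : tree9.Reachable 2 8 :=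
      (SimpleGraph.Adj.reachable (show tree9.Adj 2 7 by decide)).trans r7
    have r6 : tree9.Reachable 6 8 :=
      (SimpleGraph.Adj.reachable (show tree9.Adj 6 3 by decide)).trans r3
    have r4 : tree9.Reachable 4 8 :=
      (SimpleGraph.Adj.reachable (show tree9.Adj 4 6 by decide)).trans r6
    have hall : ∀ i : Fin 9, tree9.Reachable i 8 := by
      intro i
      fin_cases i <;> assumption
    exact ⟨fun i j => (hall i).trans (hall j).symm⟩
  · rw [Nat.card_eq_fintype_card, Nat.card_eq_fintype_card, ← SimpleGraph.edgeFinset_card]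
    decide +kernel

/-! ### The configurations -/

/-- the points with index less than `n` -/
noncomputable def conf (n : ℕ) : Finset (ℝ × ℝ) := (Finset.range n).image P

theorem P_mem {n i : ℕ} (h : i < n) : P i ∈ conf n :=
  Finset.mem_image_of_mem _ (Finset.mem_range.2 h)

/-- the index of a point -/
noncomputable def toConf {n : ℕ} (i : Fin n) : conf n := ⟨P i, P_mem i.2⟩

theorem toConf_bij {n : ℕ} (hn : n ≤ 9) : Function.Bijective (toConf (n := n)) := by
  constructor
  · intro i j h
    have h1 : P i = P j := congrArg Subtype.val h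
    exact Fin.ext (P_inj (by omega) (by omega) h1)
  · rintro ⟨p, hp⟩
    unfold conf at hp
    rw [Finset.mem_image] at hp
    obtain ⟨i, hi, rfl⟩ := hp
    exact ⟨⟨i, Finset.mem_range.1 hi⟩, rfl⟩

theorem card_conf {n : ℕ} (hn : n ≤ 9) : (conf n).card = n := by
  unfold conf
  rw [Finset.card_image_of_injOn, Finset.card_range]
  intro i hi j hj h
  rw [Finset.mem_coe, Finset.mem_range] at hi hj
  exact P_inj (by omega) (by omega) h

theorem stabCount_bdd {S : Finset (ℝ × ℝ)} (G : SimpleGraph S) :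
    BddAbove {k | ∃ l, IsLine l ∧ k = stabCount G l} := by
  refine ⟨Nat.card (Sym2 S), ?_⟩
  rintro k ⟨l, -, rfl⟩
  unfold stabCount
  exact Set.ncard_le_card _

theorem four_le : 4 ≤ treeStab (conf 8) := by
  have hne : {k | ∃ G : SimpleGraph (conf 8), G.IsTree ∧ k = stabNumber G}.Nonempty := by
    have : Nonempty (conf 8) := ⟨toConf 0⟩
    obtain ⟨G, -, hG⟩ := (SimpleGraph.connected_top (V := conf 8)).exists_isTree_le
    exact ⟨_, G, hG, rfl⟩
  obtain ⟨G, hG, hk⟩ := Nat.sInf_mem hne
  change 4 ≤ sInf _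
  rw [hk]
  -- the graph on the indices
  let e : Fin 8 ≃ conf 8 := Equiv.ofBijective toConf (toConf_bij (by norm_num))
  have he : ∀ i, ((e i : conf 8) : ℝ × ℝ) = P i := fun i => rfl
  let H : SimpleGraph (Fin 8) := G.comap e
  have hH : H.Connected := (SimpleGraph.Iso.comap e G).connected_iff.2 hG.connected
  have hbad := not_good hH
  unfold Good at hbad
  push Not at hbad
  obtain ⟨m, hm, L, hL1, hL2, hL3⟩ := hbad
  rw [masks_eq, List.mem_map] at hm
  obtain ⟨l, hl, rfl⟩ := hm
  obtain ⟨hl1, hl2⟩ := lines_ok l hl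
  have hline : IsLine {p : ℝ × ℝ | (l.1 : ℝ) * p.1 + (l.2.1 : ℝ) * p.2 = (l.2.2.1 : ℝ)} := by
    refine ⟨_, _, _, ?_, rfl⟩
    rcases hl1 with h | h
    · exact Or.inl (by exact_mod_cast h)
    · exact Or.inr (by exact_mod_cast h)
  have hsign : ∀ i < 8, (l.2.2.2.testBit i = true ∧ 0 < fn l.1 l.2.1 l.2.2.1 (P i)) ∨
      (l.2.2.2.testBit i = false ∧ fn l.1 l.2.1 l.2.2.1 (P i) < 0) := by
    intro i hi
    rcases hl2 i hi with ⟨h1, h2⟩ | ⟨h1, h2⟩
    · left
      refine ⟨h1, ?_⟩
      have : (l.2.2.1 : ℝ) < l.1 * (ptZ i).1 + l.2.1 * (ptZ i).2 := by exact_mod_cast h2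
      unfold fn P
      simp only
      linarith
    · right
      refine ⟨h1, ?_⟩
      have : (l.1 : ℝ) * (ptZ i).1 + l.2.1 * (ptZ i).2 < (l.2.2.1 : ℝ) := by exact_mod_cast h2
      unfold fn P
      simp only
      linarith
  refine le_trans ?_ (le_csSup (stabCount_bdd G) ⟨_, hline, rfl⟩)
  -- inject the list into the set of stabbed edges
  have hlt : ∀ x ∈ L, x.1 < 8 ∧ x.2 < 8 := fun x hx => by
    obtain ⟨h1, h2, -, -⟩ := (hL2 x hx).1
    exact ⟨h1, h2⟩
  let φ : ℕ × ℕ → Sym2 (conf 8) := fun x =>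
    if h : x.1 < 8 ∧ x.2 < 8 then s(e ⟨x.1, h.1⟩, e ⟨x.2, h.2⟩) else s(e 0, e 0)
  have hinj : Set.InjOn φ (L.toFinset : Set (ℕ × ℕ)) := by
    intro x hx y hy hxy
    rw [Finset.mem_coe, List.mem_toFinset] at hx hy
    obtain ⟨x1, x2, x3, -⟩ := (hL2 x hx).1
    obtain ⟨y1, y2, y3, -⟩ := (hL2 y hy).1
    simp only [φ, dif_pos (hlt x hx), dif_pos (hlt y hy)] at hxy
    rw [Sym2.eq_iff] at hxy
    rcases hxy with ⟨h1, h2⟩ | ⟨h1, h2⟩
    · have h3 := e.injective h1
      have h4 := e.injective h2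
      rw [Fin.mk.injEq] at h3 h4
      exact Prod.ext h3 h4
    · have h3 := e.injective h1
      have h4 := e.injective h2
      rw [Fin.mk.injEq] at h3 h4
      omega
  have hcard : (L.toFinset.image φ).card = L.length := by
    rw [Finset.card_image_of_injOn hinj, List.toFinset_card_of_nodup hL1]
  have hsub : (L.toFinset.image φ : Set (Sym2 (conf 8))) ⊆
      {z : Sym2 (conf 8) | ∃ p q : conf 8, z = s(p, q) ∧ G.Adj p q ∧
        Stabs {p : ℝ × ℝ | (l.1 : ℝ) * p.1 + (l.2.1 : ℝ) * p.2 = (l.2.2.1 : ℝ)} p q} := by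
    intro z hz
    rw [Finset.coe_image, Set.mem_image] at hz
    obtain ⟨x, hx, rfl⟩ := hz
    rw [Finset.mem_coe, List.mem_toFinset] at hx
    obtain ⟨⟨x1, x2, x3, x4⟩, hcr⟩ := hL2 x hx
    refine ⟨e ⟨x.1, x1⟩, e ⟨x.2, x2⟩, ?_, x4, ?_⟩
    · simp only [φ, dif_pos (hlt x hx)]
    · rw [he, he]
      apply stabs_of_sign
      unfold crossM at hcr
      rcases hsign x.1 x1 with ⟨a1, a2⟩ | ⟨a1, a2⟩ <;> rcases hsign x.2 x2 with ⟨b1, b2⟩ | ⟨b1, b2⟩
      · rw [a1, b1] at hcr; exact absurd hcr (by decide)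
      · exact mul_neg_of_pos_of_neg a2 b2
      · exact mul_neg_of_neg_of_pos a2 b2
      · rw [a1, b1] at hcr; exact absurd hcr (by decide)
  calc 4 ≤ L.length := by omega
    _ = (L.toFinset.image φ).card := hcard.symm
    _ = ((L.toFinset.image φ : Finset (Sym2 (conf 8))) : Set (Sym2 (conf 8))).ncard :=
        (Set.ncard_coe_finset _).symm
    _ ≤ stabCount G _ := Set.ncard_le_ncard hsub (Set.toFinite _)

theorem le_three : treeStab (conf 9) ≤ 3 := by
  classical
  let e : Fin 9 ≃ conf 9 := Equiv.ofBijective toConf (toConf_bij le_rfl)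
  have he : ∀ i, ((e i : conf 9) : ℝ × ℝ) = P i := fun i => rfl
  let G : SimpleGraph (conf 9) := tree9.comap e.symm
  have hG : G.IsTree := by
    have iso : G ≃g tree9 := SimpleGraph.Iso.comap e.symm tree9
    exact iso.isTree_iff.2 tree9_isTree
  refine le_trans (Nat.sInf_le ⟨G, hG, rfl⟩) ?_
  unfold stabNumber
  refine csSup_le' ?_
  rintro k ⟨l, ⟨a, b, c, -, rfl⟩, rfl⟩
  -- the stabbed edges come from the list
  let L := T9.filter fun x => decide (fn a b c (P x.1) * fn a b c (P x.2) < 0)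
  have hL : L.length ≤ 3 := by
    apply upper a b c L
    · exact List.Nodup.filter _ (by decide)
    · intro x hx
      rw [List.mem_filter] at hx
      exact ⟨hx.1, of_decide_eq_true hx.2⟩
  let φ : ℕ × ℕ → Sym2 (conf 9) := fun x =>
    if h : x.1 < 9 ∧ x.2 < 9 then s(e ⟨x.1, h.1⟩, e ⟨x.2, h.2⟩) else s(e 0, e 0)
  have hsub : {z : Sym2 (conf 9) | ∃ p q : conf 9, z = s(p, q) ∧ G.Adj p q ∧
      Stabs {p : ℝ × ℝ | a * p.1 + b * p.2 = c} p q} ⊆
      (L.toFinset.image φ : Set (Sym2 (conf 9))) := by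
    rintro z ⟨p, q, rfl, hadj, hst⟩
    obtain ⟨i, rfl⟩ := e.surjective p
    obtain ⟨j, rfl⟩ := e.surjective q
    have hadj' : tree9.Adj i j := by
      have : tree9.Adj (e.symm (e i)) (e.symm (e j)) := hadj
      simpa using this
    have hne : P i ≠ P j := by
      intro h
      have := P_inj i.2 j.2 h
      exact hadj'.ne (Fin.ext this)
    rw [he, he] at hst
    have hs := sign_of_stabs a b c _ _ hne hst
    rw [Finset.coe_image, Set.mem_image]
    rcases hadj' with h | h
    · refine ⟨(i.1, j.1), ?_, ?_⟩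
      · rw [Finset.mem_coe, List.mem_toFinset, List.mem_filter]
        exact ⟨h, decide_eq_true hs⟩
      · simp only [φ, dif_pos (⟨i.2, j.2⟩ : i.1 < 9 ∧ j.1 < 9), Fin.eta]
    · refine ⟨(j.1, i.1), ?_, ?_⟩
      · rw [Finset.mem_coe, List.mem_toFinset, List.mem_filter]
        exact ⟨h, decide_eq_true (by rw [mul_comm]; exact hs)⟩
      · simp only [φ, dif_pos (⟨j.2, i.2⟩ : j.1 < 9 ∧ i.1 < 9), Fin.eta]
        exact Sym2.eq_swap
  calc stabCount G _ ≤ ((L.toFinset.image φ : Finset (Sym2 (conf 9))) :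
        Set (Sym2 (conf 9))).ncard := Set.ncard_le_ncard hsub (Set.toFinite _)
    _ = (L.toFinset.image φ).card := Set.ncard_coe_finset _
    _ ≤ L.toFinset.card := Finset.card_image_le
    _ ≤ L.length := List.toFinset_card_le _
    _ ≤ 3 := hL

theorem det_eq_zero {p q r : ℝ × ℝ} (h : Collinear ℝ {p, q, r}) :
    (q.1 - p.1) * (r.2 - p.2) - (q.2 - p.2) * (r.1 - p.1) = 0 := by
  rw [collinear_iff_of_mem (p₀ := p) (by simp)] at h
  obtain ⟨v, hv⟩ := h
  obtain ⟨s, hs⟩ := hv q (by simp)
  obtain ⟨t, ht⟩ := hv r (by simp)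
  rw [hs, ht]
  simp only [vadd_eq_add, Prod.fst_add, Prod.snd_add, Prod.smul_fst, Prod.smul_snd, smul_eq_mul]
  ring

theorem general_position : ∀ p ∈ conf 9, ∀ q ∈ conf 9, ∀ r ∈ conf 9, p ≠ q → q ≠ r → p ≠ r →
    ¬ Collinear ℝ {p, q, r} := by
  intro p hp q hq r hr hpq hqr hpr hcol
  unfold conf at hp hq hr
  rw [Finset.mem_image] at hp hq hr
  obtain ⟨i, hi, rfl⟩ := hp
  obtain ⟨j, hj, rfl⟩ := hq
  obtain ⟨k, hk, rfl⟩ := hr
  rw [Finset.mem_range] at hi hj hk
  have key : ∀ i j k : Fin 9, i ≠ j → j ≠ k → i ≠ k → det i j k ≠ 0 := by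
    decide +kernel
  have key2 : det i j k ≠ 0 := by
    refine key ⟨i, hi⟩ ⟨j, hj⟩ ⟨k, hk⟩ ?_ ?_ ?_
    · intro h
      rw [Fin.mk.injEq] at h
      exact hpq (by rw [h])
    · intro h
      rw [Fin.mk.injEq] at h
      exact hqr (by rw [h])
    · intro h
      rw [Fin.mk.injEq] at h
      exact hpr (by rw [h])
  apply key2
  have h := det_eq_zero hcol
  unfold P at h
  simp only at h
  unfold det
  exact_mod_cast h

/-- There are a set `S` of nine points in the plane, no three of them collinear, and a subset `S'`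
of eight points of `S` with `TREE-STAB(S) ≤ 3` and `TREE-STAB(S') ≥ 4`. -/
theorem result : ∃ S S' : Finset (ℝ × ℝ), S' ⊆ S ∧ S'.Nonempty ∧ S.card = 9 ∧ S'.card = 8 ∧
    (∀ p ∈ S, ∀ q ∈ S, ∀ r ∈ S, p ≠ q → q ≠ r → p ≠ r → ¬ Collinear ℝ {p, q, r}) ∧
    treeStab S ≤ 3 ∧ 4 ≤ treeStab S' := by
  refine ⟨conf 9, conf 8, ?_, ⟨P 0, P_mem (by norm_num)⟩, card_conf le_rfl,
    card_conf (by norm_num), general_position, le_three, four_le⟩
  exact Finset.image_subset_image (Finset.range_subset_range.2 (by norm_num))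

end Pool.Agent.U491.TreeStab
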